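import Pool.Agent.Helper23.MS.Final

/-!
# MP_4128fd_co: the second largest eigenvalue in the perfect matching scheme

`PM V` is the type of perfect matchings of the complete graph on `V` (as involutions without
fixed points), `typ P Q` the multiset of half sizes of the connected components of the union of
`P` and `Q`, `kern μ` the matrix `A_μ`, and `V2` the component `V_{[2n-2,2]}`: the functions
`P ↦ ∑_{x} g x (P x)` where `g` is a function on the edges whose sum at each vertex is `0`.
-/

open scoped BigOperators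
open Finset

namespace Pool.Agent.Results.MP_4128fd_co.SecondEigenvalue

open Pool.Agent.Helper23.MS

/-- For every `n ≥ 16` and every partition `μ` of `n` with at least two parts equal to `1` the
second largest eigenvalue of `A_μ` occurs on `V_{[2n-2,2]}`: that component is not zero, consists
of functions orthogonal to the constants, `A_μ` acts on it as a scalar `θ`, and every eigenvalue
of `A_μ` on the orthogonal complement of the constants is at most `θ`.  The scalar is
`((2 n - 1) k - n) / (2 n (n - 1))` times the row sum, where `k` is the number of parts `1`. -/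
theorem result (n : ℕ) (hn : 16 ≤ n) (μ : n.Partition) (hμ : 2 ≤ μ.parts.count 1)
    (V : Type) [Fintype V] [DecidableEq V] (hV : Fintype.card V = 2 * n) :
    ∃ θ : ℝ,
      (∃ f : PM V → ℝ, V2 f ∧ f ≠ 0) ∧
      (∀ f : PM V → ℝ, V2 f →
        ∑ P, f P = 0 ∧ ∀ P, ∑ Q, kern μ.parts P Q * f Q = θ * f P) ∧
      (∀ f : PM V → ℝ, ∑ P, f P = 0 →
        ∑ P, ∑ Q, kern μ.parts P Q * f P * f Q ≤ θ * ∑ P, f P ^ 2) ∧
      (∀ f : PM V → ℝ, ∑ P, f P = 0 → f ≠ 0 → ∀ η : ℝ,
        (∀ P, ∑ Q, kern μ.parts P Q * f Q = η * f P) → η ≤ θ) ∧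
      (∀ P : PM V, θ =
        (((2 * n - 1) * (μ.parts.count 1 : ℝ) - n) / (2 * n * (n - 1))) *
          ∑ Q, kern μ.parts P Q) := by
  have hs : μ.parts.sum = n := μ.parts_sum
  have hV' : Fintype.card V = 2 * μ.parts.sum := by rw [hs, hV]
  have hU := main_upper μ.parts (fun c hc => μ.parts_pos hc) (by rw [hs]; exact hn) hμ
  rw [hs] at hU
  have hq : ∀ f : PM V → ℝ, ∑ P, f P = 0 →
      ∑ P, ∑ Q, kern μ.parts P Q * f P * f Q ≤
        (om n (μ.parts.count 1) * rsum (kern (V := V) μ.parts)) * ∑ P, f P ^ 2 :=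
    fun f hf => hU V hV' f hf
  refine ⟨om n (μ.parts.count 1) * rsum (kern (V := V) μ.parts),
    V2_exists n (by omega) hV, ?_, hq, ?_, ?_⟩
  · intro f hf
    exact ⟨V2_mean f hf, fun P => V2_eig μ.parts n hs (by omega) hV f hf P⟩
  · intro f hf hne η hη
    have h1 := hq f hf
    have h2 : ∑ P, ∑ Q, kern μ.parts P Q * f P * f Q = η * ∑ P, f P ^ 2 := by
      rw [Finset.mul_sum]
      refine Finset.sum_congr rfl fun P _ => ?_
      have h3 : ∑ Q, kern μ.parts P Q * f P * f Q = f P * ∑ Q, kern μ.parts P Q * f Q := by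
        rw [Finset.mul_sum]
        exact Finset.sum_congr rfl fun Q _ => by ring
      rw [h3, hη P]
      ring
    rw [h2] at h1
    have hpos : 0 < ∑ P, f P ^ 2 := by
      obtain ⟨P, hP⟩ := Function.ne_iff.1 hne
      exact Finset.sum_pos' (fun _ _ => sq_nonneg _)
        ⟨P, Finset.mem_univ _, by exact sq_pos_of_ne_zero hP⟩
    exact le_of_mul_le_mul_right h1 hpos
  · intro P
    rw [row_const _ (kern_Inv μ.parts) P]
    rfl

end Pool.Agent.Results.MP_4128fd_co.SecondEigenvalue
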